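import Pool.Agent.Helper52.MF.Proof

set_option autoImplicit false

namespace Pool.Agent.Results.MP_94a3a7_co.EqualityCase

open Finset Pool.Agent.Helper52.MF

/-- **Q2, answered affirmatively (without assuming Q1).**  Let `1 ≤ r ≤ i`, `d = q i + r`, and let
`D` be a `ZMod 2`-homology `(d-1)`-sphere all of whose missing faces have dimension at most `i`.
If `g_j(D) = g_j(K(i,d-1))` for all `0 ≤ j ≤ d/2`, then `D` is isomorphic to `K(i,d-1)`. -/
theorem result (q i r : ℕ) (hi : 1 ≤ i) (hr : 1 ≤ r) (hri : r ≤ i)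
    (V : Type) [Fintype V] [DecidableEq V] (D : Cpx V) (hD : InS D i (q * i + r))
    (hg : ∀ j, j ≤ (q * i + r) / 2 →
      gnum D (q * i + r) j = gnum (K q i r hi hr) (q * i + r) j) :
    Iso D (K q i r hi hr) := by
  classical
  have h1 := fnum_eq_of_gnum_eq D (K q i r hi hr) (q * i + r) hg
  have h2 := fpoly_eq D (K q i r hi hr) (q * i + r) hD.1.2.1 (card_le_K q i r hi hr)
    (ds_sphere D _ hD.1) (ds_K q i r hi hr) h1
  have h3 : ∀ k, fnum D k = fnum (K q i r hi hr) k := by
    intro k
    have := congrArg (fun p => Polynomial.coeff p k) h2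
    simp only [coeff_fpoly] at this
    exact_mod_cast this
  let M : Finset (Finset V) := univ.filter (fun t => IsMissing D t)
  have hM : ∀ t, t ∈ M ↔ IsMissing D t := by intro t; simp [M]
  obtain ⟨a1, a2, a3, a4⟩ := missing_structure D q i r hi hr hri hD.1.2.1 hD.2 h3 M hM
  exact iso_of_structure D q i r hi hr M hM a1 a2 a3 a4

end Pool.Agent.Results.MP_94a3a7_co.EqualityCase
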